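import Pool.Agent.Lib.MP_4b601f_co.Main

namespace Pool.Agent.Results.MP_4b601f_co.EscapeDown

open Pool.Agent.Lib.MP_4b601f_co

/-- On every rooted ordered locally finite tree (given by its numbers of children `b`), every
0-1 sequence below an escape sequence is an escape sequence. -/
theorem result (b r : List ℕ → ℕ) (hr : ∀ v, r v ≤ b v) (e' : ℕ → Prop)
    (he : ∀ n, e' n → escapeSeq b r n) :
    ∃ r' : List ℕ → ℕ, (∀ v, r' v ≤ b v) ∧ ∀ n, escapeSeq b r' n ↔ e' n :=
  main b r hr e' he

end Pool.Agent.Results.MP_4b601f_co.EscapeDown
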